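import Mathlib
import Pool.Agent.N66.AF.All

set_option autoImplicit false

/-!
# Homomorphisms from `Aut(F_n)` to linear groups in positive characteristic

For every `n` and every prime `p` there is a normal subgroup `N` of finite index in `Aut(F_{n+1})`
that is contained in the kernel of every homomorphism `φ : Aut(F_{n+1}) → GL_d(K)`, `K` a field of
characteristic `p`, `d < binom (⌊(n+1)/2⌋ - 5) 2`. So the image of `φ` is finite, a quotient of a
fixed finite group: for these targets the conclusion of the question holds without the hypothesis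
on the image of `Aut(F_n)`.
-/

namespace Pool.Agent.Results.MP_1d7b2e_al.PositiveCharacteristic

open Pool.Agent.N66.AF

universe u

theorem exists_N (L : Lv.{u}) (n p : ℕ) (hp : p.Prime) :
    ∃ N : Subgroup (MulAut (FreeGroup (Fin n))), N.Normal ∧ N.FiniteIndex ∧
      ∀ d : ℕ, d < (n / 2 - 5).choose 2 → ∀ (K : Type u) [Field K], CharP K p →
        ∀ φ : MulAut (FreeGroup (Fin n)) →* Matrix.GeneralLinearGroup (Fin d) K,
          N ≤ φ.ker := by
  obtain ⟨c1, c2, -⟩ := L.CC n p hp
  obtain ⟨c3, c4, -⟩ := L.CC n 3 Nat.prime_three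
  refine ⟨Subgroup.normalClosure {ψ | ∀ x, ψ x * x⁻¹ ∈ Cp n p ⊓ Cp n 3}, inferInstance, ?_, ?_⟩
  · exact (L.FI n (Cp n p ⊓ Cp n 3) (char_inf c1 c3) inferInstance _
      fun φ h => Subgroup.subset_normalClosure h).1
  · intro d hd K _ hK φ
    exact Subgroup.normalClosure_le_normal fun ψ h => (char_p L hd φ hp).1.2.1 ψ h

/-- For all `n` and all primes `p` there is a normal subgroup `N` of finite index in
`Aut(F_{n+1})` such that for every `d < binom (⌊(n+1)/2⌋ - 5) 2` and every field `K` of
characteristic `p` the kernel of every homomorphism `Aut(F_{n+1}) → GL_d(K)` contains `N`; so the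
image is finite. -/
theorem result (n p : ℕ) (hp : p.Prime) :
    ∃ N : Subgroup (MulAut (FreeGroup (Fin (n + 1)))), N.Normal ∧ N.FiniteIndex ∧
      ∀ d : ℕ, d < ((n + 1) / 2 - 5).choose 2 → ∀ (K : Type u) [Field K], CharP K p →
        ∀ φ : MulAut (FreeGroup (Fin (n + 1))) →* Matrix.GeneralLinearGroup (Fin d) K,
          N ≤ φ.ker ∧ (Set.range φ).Finite := by
  obtain ⟨N, h1, h2, h3⟩ := exists_N lv.{u} (n + 1) p hp
  refine ⟨N, h1, h2, fun d hd K _ hK φ => ?_⟩
  have h4 := h3 d hd K hK φ
  have h5 : φ.ker.FiniteIndex := Subgroup.finiteIndex_of_le h4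
  have h6 : Finite φ.range :=
    Finite.of_equiv _ (QuotientGroup.quotientKerEquivRange φ).toEquiv
  refine ⟨h4, ?_⟩
  rw [← MonoidHom.coe_range]
  exact Set.toFinite _

end Pool.Agent.Results.MP_1d7b2e_al.PositiveCharacteristic
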